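import Pool.Agent.helper69.GR2B.Spec

/-! # Project gb, row gb:BLC (MP_af9036_an): the local form in a cell without zeros -/

set_option autoImplicit false

open Complex Metric Set Filter Topology MeasureTheory
open MPS (om)
open PPS (pre TT fd)
open XPS (Df er dens tau)
open Pool.Agent.helper16.Multibrot

noncomputable section

namespace GR

theorem BLC_alg (x y z : ℂ) (hx : ‖x - 1‖ ≤ 1 / 64) (hy : ‖y - 1‖ ≤ 1 / 32) (hz : ‖z - 1‖ ≤ 1 / 31) :
    ‖x * y * z - 1‖ ≤ 1 / 4 := by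
  obtain ⟨a, ha⟩ : ∃ a, a = x - 1 := ⟨_, rfl⟩
  obtain ⟨b, hb⟩ : ∃ b, b = y - 1 := ⟨_, rfl⟩
  obtain ⟨d, hd⟩ : ∃ d, d = z - 1 := ⟨_, rfl⟩
  rw [← ha] at hx
  rw [← hb] at hy
  rw [← hd] at hz
  have e : x * y * z - 1 = a + b + d + a * b + a * d + b * d + a * b * d := by
    rw [ha, hb, hd]; ring
  rw [e]
  have hab : ‖a * b‖ ≤ 1 / 64 * (1 / 32) := by
    rw [norm_mul]; gcongr
  have had : ‖a * d‖ ≤ 1 / 64 * (1 / 31) := by
    rw [norm_mul]; gcongr
  have hbd : ‖b * d‖ ≤ 1 / 32 * (1 / 31) := by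
    rw [norm_mul]; gcongr
  have habd : ‖a * b * d‖ ≤ 1 / 64 * (1 / 32) * (1 / 31) := by
    rw [norm_mul]; gcongr
  have h1 := norm_add_le (a + b + d + a * b + a * d + b * d) (a * b * d)
  have h2 := norm_add_le (a + b + d + a * b + a * d) (b * d)
  have h3 := norm_add_le (a + b + d + a * b) (a * d)
  have h4 := norm_add_le (a + b + d) (a * b)
  have h5 := norm_add_le (a + b) d
  have h6 := norm_add_le a b
  linarith

theorem BLC (hBCZ : BCZ_stmt) : BLC_stmt := by
  intro F T a A' r L ρ hr0 hL hA' hFd hF hFa hFT hρ haρ w hw1 hw2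
  have hM1 : 1 ≤ Real.exp L := Real.one_le_exp hL
  have hlog : 1 + Real.log (2 * Real.exp L) ≤ 2 + L := by
    rw [Real.log_mul (by norm_num) (Real.exp_pos L).ne', Real.log_exp]
    have := Real.log_two_lt_d9
    linarith
  have hlog0 : 0 < 1 + Real.log (2 * Real.exp L) := by
    have : 0 ≤ Real.log (2 * Real.exp L) := Real.log_nonneg (by linarith)
    linarith
  have hρ0 : 0 < ρ := by rw [hρ]; positivity
  have h2ρ : 2 * ρ = r / (256 * (2 + L)) := by
    have h1 : 2 + L ≠ 0 := by positivity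
    rw [hρ]
    field_simp
    norm_num
  have h2ρr : 2 * ρ < r := by
    rw [h2ρ, div_lt_iff₀ (by positivity)]
    nlinarith
  have hFhalf : 1 / 2 ≤ ‖F a‖ := by
    have h1 : ‖(1 : ℂ)‖ ≤ ‖F a‖ + ‖F a - 1‖ := by
      calc ‖(1 : ℂ)‖ = ‖F a - (F a - 1)‖ := by ring_nf
        _ ≤ _ := norm_sub_le _ _
    rw [norm_one] at h1
    linarith
  have hwa : ‖w - a‖ ≤ 2 * ρ := by
    have := norm_sub_le w a
    linarith
  have hwa2 : 31 / 64 * ρ ≤ ‖w - a‖ := by
    have := norm_sub_norm_le w a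
    linarith
  have hwne : w - a ≠ 0 := by
    intro h0
    rw [h0, norm_zero] at hwa2
    linarith
  have hB := hBCZ F a r (Real.exp L) hr0 hM1 hFd hF hFhalf w (by
    refine hwa.trans ?_
    rw [h2ρ]
    exact div_le_div_of_nonneg_left hr0.le (by positivity)
      (mul_le_mul_of_nonneg_left hlog (by norm_num)))
  have hwb : w ∈ ball a r := by
    rw [mem_ball, dist_eq_norm]
    linarith
  have hK1 := hFT w hwb (sub_ne_zero.1 hwne)
  have hFa0 : F a ≠ 0 := by
    intro h0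
    rw [h0, norm_zero] at hFhalf
    linarith
  have hw0 : w ≠ 0 := by
    intro h0
    rw [h0, norm_zero] at hw1
    linarith
  have hz : ‖w / (w - a) - 1‖ ≤ 1 / 31 := by
    have e : w / (w - a) - 1 = a / (w - a) := by
      field_simp
      ring
    rw [e, norm_div, div_le_iff₀ (norm_pos_iff.2 hwne)]
    linarith
  have key : T w - A'⁻¹ * w ^ (-1 : ℤ) = A'⁻¹ * w ^ (-1 : ℤ) *
      (F a * (F w / F a) * (w / (w - a)) - 1) := by
    have e1 : F a * (F w / F a) = F w := by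
      field_simp
    rw [e1, hK1, zpow_neg_one]
    field_simp
  rw [key, norm_mul, mul_comm]
  refine mul_le_mul_of_nonneg_right ?_ (norm_nonneg _)
  exact BLC_alg _ _ _ hFa hB hz

end GR
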